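import Mathlib
import Pool.Agent.Lib.MP_240120_ag.CS.Fin

set_option autoImplicit false

/-!
# Groups containing the reflections in vectors of square `2` and `-2` are congruence subgroups

Let `N` be an even lattice of signature `(1, 1)` without nonzero vectors of square zero, for instance
the Néron-Severi lattice of a complex K3 surface `X` of Picard number two which has no elliptic
fibration, and let `L = U ⊕ N`, `U` the hyperbolic plane (the extended Néron-Severi lattice of `X`).
Write `N = ℤ²` with Gram matrix `(2α, β; β, 2γ)`; then `(v, v) = 2 q(v)` on `L = ℤ⁴`, with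
`q(v) = v₀ v₁ + α v₂² + β v₂ v₃ + γ v₃²`, and the assumption is that `β² - 4αγ` is positive and not a
square.

The theorem: every subgroup `W` of `GL(L)` which contains all reflections in the vectors of `L` of
square `2` and `-2` contains, for some `M > 0`, all isometries of `L` which are congruent to the
identity modulo `M`. The proof is complete and uses no unproved hypothesis.

Idea of the proof. Let `R = ℤ[√D]`, `K = ℚ(√D)`, `D = β² - 4αγ`. The matrices of `SL₂(K)` which act on
`L ⊗ ℚ` as elements of the group generated by the reflections form a subgroup `N`, normalised by a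
congruence subgroup of `SL₂(R)`; it contains the matrices `(a, b; c₀ b', d)` of determinant one with
`a`, `d` in `ℤ`, `b` in `R`, `b'` the conjugate of `b`, `c₀ = 4 |α|`. The units of `R` and comparison of a
reflection with its conjugates show that for some `m` all elementary matrices which are congruent to the
identity modulo `m` and all commutators of `SL₂(R)` with the group `G(m)` of the matrices congruent to
the identity modulo `m` lie in `N`. So the class modulo `N` of an element of `G(m)` depends only on its
first row `(a, b)`, and with primes in arithmetic progressions (Dirichlet) one shows that it does not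
change if `b` is multiplied by the square of an element of `R` prime to `a`, and that up to such
changes every row is the row of a special matrix or of a diagonal one. Hence `N` contains a group
`G(q)`, and each isometry congruent to the identity modulo a suitable `M` comes from `G(q)` and a
special matrix.
-/

namespace Pool.Agent.Results.MP_240120_ag.AnisotropicCongruence

/-- The quadratic form `q(v) = v₀ v₁ + α v₂² + β v₂ v₃ + γ v₃²` on `L = ℤ⁴`. The square of a vector `v`
of the lattice `L = U ⊕ N` is `2 q(v)`. -/
def q (α β γ : ℤ) (v : Fin 4 → ℤ) : ℤ := v 0 * v 1 + α * v 2 ^ 2 + β * v 2 * v 3 + γ * v 3 ^ 2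

/-- The bilinear form `(v, w) = q(v + w) - q(v) - q(w)` of the lattice `L`. -/
def bil (α β γ : ℤ) (v w : Fin 4 → ℤ) : ℤ := q α β γ (v + w) - q α β γ v - q α β γ w

theorem result (α β γ : ℤ) (hpos : 0 < β ^ 2 - 4 * α * γ) (hani : ¬ IsSquare (β ^ 2 - 4 * α * γ))
    (W : Subgroup ((Fin 4 → ℤ) ≃ₗ[ℤ] (Fin 4 → ℤ)))
    (hW : ∀ (v : Fin 4 → ℤ) (g : (Fin 4 → ℤ) ≃ₗ[ℤ] (Fin 4 → ℤ)), (q α β γ v = 1 ∨ q α β γ v = -1) →
      (∀ x, g x = x - (q α β γ v * bil α β γ v x) • v) → g ∈ W) :
    ∃ M : ℕ, 0 < M ∧ ∀ g : (Fin 4 → ℤ) ≃ₗ[ℤ] (Fin 4 → ℤ), (∀ v, q α β γ (g v) = q α β γ v) →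
      (∀ v i, (M : ℤ) ∣ g v i - v i) → g ∈ W := by
  have e1 : ∀ v w : Fin 4 → ℤ, Pool.Agent.Lib.CSL.pol α β γ v w = bil α β γ v w := fun v w => by
    simp only [Pool.Agent.Lib.CSL.pol, bil, q, Pi.add_apply]
    ring
  exact Pool.Agent.Lib.CSL.main α β γ hpos (fun n hn => hani ⟨n, hn⟩) W
    (fun v g hv hg => hW v g hv (fun x => by rw [hg x, e1]; rfl))

end Pool.Agent.Results.MP_240120_ag.AnisotropicCongruence
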