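import Pool.Agent.Lib.MP_240120_one.Final
import Pool.Agent.Lib.MP_240120_one.Table

set_option autoImplicit false

/-!
# Bloch-type conjecture for derived (anti-)autoequivalences of K3 surfaces of Picard number one

Let `X` be a complex K3 surface with `NS(X) = ℤ h`, `h² = 2n`.  The structure `K3 n` collects the Mukai
lattice, the zero-cycles, the group of derived autoequivalences and anti-autoequivalences and its actions,
with the known theorems that are used.  Let `n` be one of the 38 numbers in the list below; these are the `n`
for which the quotient `X_0(n) / w_n` of the modular curve by the Fricke involution has genus zero.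

1. Every isometry of the lattice of algebraic Mukai vectors `(r, c h, s)` which acts on the discriminant group
   `ℤ / 2n` as `1` or `-1` is a composition of `-1`, the duality `(r, -c, s)`, reflections in vectors of
   square `2` and `-2`, and transvections with isotropic vectors.
2. A derived autoequivalence (anti-autoequivalence) `Φ` of `X` which acts on the transcendental lattice
   as `ε • id`, `ε = ±1`, acts on the group of zero-cycles of degree zero as `ε • id` (as `-ε • id`).

Idea of the proof.  The transvections come from line bundles on the (twisted) Fourier-Mukai partners of `X`, so they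
act trivially on zero-cycles of degree zero, and 2 follows from 1.  For 1 one reduces the rank `r` of
the image `v = (r, c, s)` of the class `(0, 0, 1)` of a point, by a Euclidean algorithm.  One has `n c² = r s`, and
after a line bundle twist and the duality `0 ≤ c / r ≤ 1 / 2`.  A composition `κ` with
`κ⁻¹ (0, 0, 1) = (ρ, σ, τ)` reduces the rank of `v` if `n ρ (c / r - σ / ρ)² < 1`: this is the isometric circle
of `κ`.  The vectors `v` in the orbit of `(0, 0, 1)` are those for which the denominator of `c / r` is
divisible by `n` or prime to `n`; the other rational numbers are cusps of the other classes.  For each `n` there is a finite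
list of compositions (of at most four factors) whose circles cover all points of `[0, 1/2]` except some of these other
cusps; this is checked by the kernel.  If the genus of `X_0(n) / w_n` is positive there is no such list,
as the group modulo these elements is infinite.
-/

namespace Pool.Agent.Results.MP_240120_ag.PicardOneGenusZero

open Pool.Agent.Lib.MP_240120_one

theorem result {n : ℤ} (hn : n ∈ [1, 2, 3, 4, 5, 6, 7, 8, 9, 10, 11, 12, 13, 14, 15, 16, 17, 18, 19, 20,
      21, 23, 24, 25, 26, 27, 29, 31, 32, 35, 36, 39, 41, 47, 49, 50, 59, 71]) :
    -- 1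
    (∀ (γ : Vec → Vec) (ε : ℤˣ) (l : Vec), (∀ v w, γ (v + w) = γ v + γ w) →
      (∀ v w, pair n (γ v) (γ w) = pair n v w) →
      γ (0, 1, 0) = (ε : ℤ) • (0, 1, 0) + (2 * n) • l → Gen n γ) ∧
    -- 2
    (∀ {H CH D : Type*} [AddCommGroup H] [AddCommGroup CH] [Group D] (X : K3 n H CH D) (Φ : D)
      (ε : ℤˣ), (∀ t, (∀ v, X.B t (X.alg v) = 0) → X.act Φ t = (ε : ℤ) • t) →
        ∀ z, X.ch Φ z = ((X.sgn Φ * ε : ℤˣ) : ℤ) • z) := by
  have key : 0 < n ∧ Covered n := by
    have h1 : n ∈ table.map Prod.fst := by
      have h2 : table.map Prod.fst = [1, 2, 3, 4, 5, 6, 7, 8, 9, 10, 11, 12, 13, 14, 15, 16, 17, 18, 19, 20,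
        21, 23, 24, 25, 26, 27, 29, 31, 32, 35, 36, 39, 41, 47, 49, 50, 59, 71] := rfl
      rw [h2]; exact hn
    obtain ⟨x, hx, rfl⟩ := List.mem_map.mp h1
    exact covered_of_check (List.all_eq_true.mp table_check x hx)
  refine ⟨fun γ ε l h1 h2 h3 => gen_of_nice key.1.ne' key.2 ⟨h1, h2, ε, l, ?_, h3⟩,
    fun X Φ ε hΦ z => X.bloch key.1.ne' key.2 Φ ε hΦ z⟩
  rcases Int.units_eq_one_or ε with rfl | rfl <;> simp

end Pool.Agent.Results.MP_240120_ag.PicardOneGenusZero
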