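import Pool.Agent.Lib.MP_240120_uni.Group

set_option autoImplicit false

/-!
# Autoequivalences of K3 surfaces of Picard number one act unipotently on zero-cycles

Let `X` be a very general complex K3 surface of degree `2 n`, `NS(X) = ℤ h`, `h ^ 2 = 2 n`, where
`n = m N ^ 2`, `m ∈ {1, 2, 3, 5, 6, 7, 11}`, `N ≥ 1`.  The structure `Isogenous` collects the zero-cycles,
the group of derived autoequivalences and anti-autoequivalences and its actions, with the known theorems
that are used.  The genus of the modular curve `X_0(n) / w_n` is unbounded on these `n`.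

1. The operators `sgn(Φ) ε Φ^CH` on `CH_0(X)_hom`, where `Φ` is a derived autoequivalence
   (`sgn(Φ) = 1`) or anti-autoequivalence (`sgn(Φ) = -1`) which acts on the transcendental lattice as `ε • id`,
   form a unipotent group: there is `k` such that
   `(sgn(Φ_1) ε_1 Φ_1^CH - 1) ... (sgn(Φ_k) ε_k Φ_k^CH - 1) = 0` for all `Φ_1, ..., Φ_k`.
2. `CH_0(X)_hom` has a finite filtration, stable under all `Φ`, such that `Φ` acts on the quotients as
   `sgn(Φ) ε`, as predicted.
3. The group of these operators is nilpotent ...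
4. ... and torsion free.
5. If the action of a power of `Φ` on `CH_0(X)_hom` is the identity, then `Φ^CH = sgn(Φ) ε`.

Idea of the proof.  `X` is isogenous to a very general K3 surface `Y` of degree `2 m`.  By Huybrechts the isogeny
identifies the zero-cycles, so the operators `sgn(Φ) ε Φ^CH - 1` come from self-correspondences of `Y` which are
zero on the transcendental lattice.  They are defined over a finite Galois extension of the field of the
universal K3 surface of degree `2 m`, since the action of `Φ` on the Mukai lattice determines the action on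
zero-cycles.  By the Franchetta property of `Y × Y` the ideal `R` of such correspondences has no
invariants under the Galois group (modulo the correspondences which act as zero on zero-cycles; it
suffices that the invariants are nilpotent); by the theorem of Bergman and Isaacs (which is proved here) `R` is
nilpotent.
-/

namespace Pool.Agent.Results.MP_240120_ag.PicardOneUnipotent

open Pool.Agent.Lib.MP_240120_uni

theorem result {G S H TY TX CY CX D : Type} [Group G] [Ring S] [Algebra ℚ S] [MulSemiringAction G S]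
    [AddCommGroup H] [AddCommGroup TY] [AddCommGroup TX] [AddCommGroup CY] [AddCommGroup CX]
    [Group D] (X : Isogenous G S H TY TX CY CX D) :
    -- 1
    (∃ k : ℕ, ∀ l : List (D × ℤˣ), l.length = k → (∀ p ∈ l, ∀ t, X.act p.1 t = (p.2 : ℤ) • t) →
      (l.map (fun p => ((X.sgn p.1 * p.2 : ℤˣ) : ℤ) • X.ch p.1 - 1)).prod = 0) ∧
    -- 2
    (∃ (k : ℕ) (F : ℕ → AddSubgroup CX), F 0 = ⊤ ∧ F k = ⊥ ∧ Antitone F ∧
      ∀ (Φ : D) (ε : ℤˣ), (∀ t, X.act Φ t = (ε : ℤ) • t) → ∀ i, ∀ z ∈ F i, X.ch Φ z ∈ F i ∧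
        X.ch Φ z - ((X.sgn Φ * ε : ℤˣ) : ℤ) • z ∈ F (i + 1)) ∧
    -- 3 and 4
    (∃ U : Subgroup (AddMonoid.End CX)ˣ, (∀ u, u ∈ U ↔ ∃ (Φ : D) (ε : ℤˣ),
        (∀ t, X.act Φ t = (ε : ℤ) • t) ∧
          ∀ z, (u : AddMonoid.End CX) z = ((X.sgn Φ * ε : ℤˣ) : ℤ) • X.ch Φ z) ∧
      Group.IsNilpotent U ∧ ∀ u ∈ U, ∀ j : ℕ, j ≠ 0 → u ^ j = 1 → u = 1) ∧
    -- 5
    (∀ (Φ : D) (ε : ℤˣ), (∀ t, X.act Φ t = (ε : ℤ) • t) → ∀ j : ℕ, j ≠ 0 →
      (∀ z, X.ch (Φ ^ j) z = z) → ∀ z, X.ch Φ z = ((X.sgn Φ * ε : ℤˣ) : ℤ) • z) :=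
  ⟨X.exists_prod, X.exists_fil,
    ⟨X.ops, X.mem_ops, X.ops_nilpotent, fun _ hu _ hj h => X.ops_torsionfree hu hj h⟩,
    fun _ _ hΦ _ hj h z => X.eq_of_finite_order hΦ hj h z⟩

end Pool.Agent.Results.MP_240120_ag.PicardOneUnipotent
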