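import Mathlib
import Pool.Agent.Lib.MP_240120_ag.TwoAni

set_option autoImplicit false

/-!
# The Bloch-type conjecture for derived (anti-)autoequivalences of K3 surfaces of Picard number two

Let `X` be a complex K3 surface with `ρ(X) = 2`, `NS(X) = ℤ h₁ ⊕ ℤ h₂`, `h₁² = 2α`, `h₁ · h₂ = β`,
`h₂² = 2γ`. The structure `PicardTwoK3 α β γ` collects the Mukai lattice, the zero-cycles, the group of
derived autoequivalences and anti-autoequivalences and its actions, with the known theorems that are
used.

The theorem: a derived autoequivalence (anti-autoequivalence) `Φ` which acts on the transcendental
lattice as `ε • id`, `ε = ±1`, acts on the group of zero-cycles of degree zero as `ε • id`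
(as `-ε • id`).

Idea of the proof. (1) If `NS(X)` has no nonzero class of square zero, then the group `W(X)` of the
criterion of the problem file is a congruence subgroup of the orthogonal group of the extended
Néron-Severi lattice. This is proved here without any hypothesis: every group which contains the
reflections in the vectors of square `2` and `-2` is a congruence subgroup. (2) If there is a
class of square zero, then `X` has an elliptic fibration. The relative Fourier-Mukai transforms over
`ℙ¹` act as the identity on the zero-cycles of degree zero, since they do so on the cycles `x - y` with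
`x`, `y` in one fibre, and every fibre meets a rational curve; together with the line bundle twists
and the spherical twists they generate.
-/

namespace Pool.Agent.Results.MP_240120_ag.PicardTwo

open Pool.Agent.Lib.MP_240120_ag.Two

theorem result {α β γ : ℤ} {H CH Pt Base D : Type*} [AddCommGroup H] [AddCommGroup CH] [Group D]
    (X : PicardTwoK3 α β γ H CH Pt Base D) (Φ : D) (ε : ℤˣ)
    (hΦ : ∀ t, (∀ v, X.B t (X.alg v) = 0) → X.act Φ t = (ε : ℤ) • t) (z : CH) :
    X.ch Φ z = ((X.sgn Φ * ε : ℤˣ) : ℤ) • z :=
  bloch X Φ ε hΦ z

end Pool.Agent.Results.MP_240120_ag.PicardTwo
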